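import Pool.Agent.K1H79.SX.Gen

/-!
# 3-torsion in the class groups of fields of even degree without `√-3`

Let `k` be a number field, `n` even and `η > 0`.  There are `Δ < 1/2` and `C` such that
`|Cl_K[3]| ≤ C |disc K| ^ Δ` for every extension `K/k` of degree `n` which does not contain `√-3` and in which
every field `F` with `k ⊆ F ⊆ K` and `[K : F]` odd and at least `5` satisfies `|disc F| ≥ |disc K| ^ η`.

The condition on the subfields is empty if `n = 2 ^ a` or `n = 3 * 2 ^ a` (`a ≥ 1`): the odd divisors of `n`
are then `1` and `3`.  So (with `k = ℚ`) for these degrees the 3-torsion of all number fields `K` of degree `n`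
which do not contain `√-3` has a power saving over the trivial bound.

Method.  Scholz reflection with `K(√-3)` and the counting argument of Ellenberg and Venkatesh relative to the
subfield `F` of `K` generated by the integers of small height; this works if `[K : F]` is even.  The primes used
are primes `𝔭` of `F` with `N 𝔭 = 2 mod 3`; many squarefree products of such primes of small norm exist by an
argument with the `L`-function of `F(√-3)/F`, polynomially in the discriminant of `F`.  If `[K : F] = 3`,
relative genus theory for cubic extensions bounds `Cl_K[3]` by `Cl_{F'}[3]`, `F'` the quadratic resolvent of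
`K/F`, and the first case applies to `F'`.
-/

set_option autoImplicit false

namespace Pool.Agent.Results.MP_695920_nt.EvenDegreeFields

open NumberField

theorem result : ∀ (k : Type) [Field k] [NumberField k] (n : ℕ), Even n → 0 < n → ∀ η : ℝ, 0 < η →
    ∃ Δ : ℝ, Δ < 1 / 2 ∧ ∃ C : ℝ, ∀ (K : Type) [Field K] [NumberField K] [Algebra k K],
      Module.finrank k K = n → (∀ x : K, x ^ 2 ≠ -3) →
      (∀ F : IntermediateField ℚ K, (∀ x : k, algebraMap k K x ∈ F) → Odd (Module.finrank F K) →
        5 ≤ Module.finrank F K → |(discr K : ℝ)| ^ η ≤ |(discr F : ℝ)|) →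
      (Nat.card {x : ClassGroup (𝓞 K) // x ^ 3 = 1} : ℝ) ≤ C * |(discr K : ℝ)| ^ Δ := by
  intro k _ _ n hn hn0 η hη
  obtain ⟨δ, C, hδ, -, h⟩ := Pool.Agent.K1H79.SX.gen k n hn hn0 η hη
  refine ⟨1 / 2 - δ, by linarith, C, ?_⟩
  intro K _ _ _ hK h3 hF
  refine h K hK ?_ hF
  intro z hz
  apply h3 (2 * z + 1)
  linear_combination 4 * hz

end Pool.Agent.Results.MP_695920_nt.EvenDegreeFields
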