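import Pool.Agent.K1H79.QR.FinE
import Pool.Agent.K1H79.QR.FinO
import Pool.Agent.K1H79.QR.Fin2

/-!
# Torsion in the class groups of fields with a small or smooth quadratic resolvent

Let `n ≥ 3`, `l ≥ 1` and let `L` run over the number fields of degree `n` without proper subfields.
Write `D = |disc L|` and `disc L = d f ^ 2`.

1. `n` even, `disc L` a square: at most `C D ^ (1/2 - 1/(l n (n-1)) + ε)` classes are killed by `l`.
2. `n` even: the same bound if `|d| ≤ D ^ (4/(l n (n-1)) - ε)`, or if no prime factor of `d` is larger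
   than `D ^ (1/(l n (n-1)) - ε)`.
3. `n` odd, `disc L` not a square: at most `C V D ^ (1/2 - 1/(l (n-1)^2) + ε)` classes if `V ≥ 1` is at
   least `|d| ^ (1/4)`, or at least as large as all prime factors of `d`.
4. `n` odd, `disc L` not a square: a power saving over `D ^ (1/2)` if `|d| ≤ D ^ (4√e/(l (n-1)^2) - ε)`,
   or if no prime factor of `d` is larger than `D ^ (√e/(l (n-1)^2) - ε)`.

Every constant depends on `n, l, ε` only; there is no exceptional field and no unproved hypothesis.

Method: if `p ∤ 2 disc L` and `(disc L / p) = (-1)^n`, then `p` has at least two prime factors in `L`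
(Pellet-Stickelberger), hence one of norm at most `p ^ ⌊n/2⌋`. Many such `p` are found by Burgess' bound,
by character sums to smooth moduli with Siegel's theorem, and for `n` odd by Vinogradov's trick; products
of these primes go into the argument of Ellenberg-Venkatesh. Starting-library theorems used as tools:
`R852.BC` (Burgess), `H568.GR` (characters to smooth moduli, the quadratic case of the smooth clause),
`H38R2.CG.PVh` (Polya-Vinogradov), `TH847.LG`, `Y159.PT` (counting, class number bound), `TH408.GR`.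
-/

set_option autoImplicit false

namespace Pool.Agent.Results.MP_695920_nt.QuadraticResolvent

open NumberField

/-- no subfields other than `ℚ` and `L` -/
def NoSubfields (L : Type) [Field L] [NumberField L] : Prop :=
  ∀ E : IntermediateField ℚ L, E = ⊥ ∨ E = ⊤

/-- the number of ideal classes of `L` killed by `l` -/
noncomputable def T (l : ℕ) (L : Type) [Field L] [NumberField L] : ℝ :=
  (Nat.card {c : ClassGroup (𝓞 L) // c ^ l = 1} : ℝ)

/-- `|disc L|` -/
noncomputable def D (L : Type) [Field L] [NumberField L] : ℝ := |(discr L : ℝ)|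

/-- all prime factors of `d` are at most `V` -/
def Smooth (d : ℤ) (V : ℝ) : Prop := ∀ p : ℕ, p.Prime → (p : ℤ) ∣ d → (p : ℝ) ≤ V

theorem result (n l : ℕ) (hn : 3 ≤ n) (hl : 1 ≤ l) (ε : ℝ) (hε : 0 < ε) :
    (Even n → ∃ C : ℝ, ∀ (L : Type) [Field L] [NumberField L], Module.finrank ℚ L = n →
      NoSubfields L →
      (IsSquare (discr L) ∨ ∃ d f : ℤ, discr L = d * f ^ 2 ∧
        (|(d : ℝ)| ≤ D L ^ (4 / (l * n * (n - 1)) - ε : ℝ) ∨
          Smooth d (D L ^ (1 / (l * n * (n - 1)) - ε : ℝ)))) →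
      T l L ≤ C * D L ^ (1 / 2 - 1 / (l * n * (n - 1)) + ε : ℝ)) ∧
    (Odd n → ∃ C : ℝ, ∀ (L : Type) [Field L] [NumberField L], Module.finrank ℚ L = n →
      NoSubfields L → ¬ IsSquare (discr L) → ∀ d f : ℤ, discr L = d * f ^ 2 →
      ∀ V : ℝ, 1 ≤ V → (|(d : ℝ)| ^ (1 / 4 : ℝ) ≤ V ∨ Smooth d V) →
      T l L ≤ C * V * D L ^ (1 / 2 - 1 / (l * (n - 1) ^ 2) + ε : ℝ)) ∧
    (Odd n → ∃ δ C : ℝ, 0 < δ ∧ ∀ (L : Type) [Field L] [NumberField L], Module.finrank ℚ L = n →
      NoSubfields L → ¬ IsSquare (discr L) → ∀ d f : ℤ, discr L = d * f ^ 2 →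
      (|(d : ℝ)| ≤ D L ^ (4 * Real.sqrt (Real.exp 1) / (l * (n - 1) ^ 2) - ε : ℝ) ∨
        Smooth d (D L ^ (Real.sqrt (Real.exp 1) / (l * (n - 1) ^ 2) - ε : ℝ))) →
      T l L ≤ C * D L ^ (1 / 2 - δ : ℝ)) := by
  have hn2 : 2 ≤ n := by omega
  have hexp : Real.exp (1 / 2) = Real.sqrt (Real.exp 1) := by
    rw [Real.exp_half]
  refine ⟨fun hev => ?_, fun hodd => ?_, fun hodd => ?_⟩
  · have hw : (Pool.Agent.K1H79.QR.wt n l : ℝ) = l * n * (n - 1) := by
      obtain ⟨k, hk⟩ := hev
      have h2 : n / 2 = k := by omega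
      unfold Pool.Agent.K1H79.QR.wt
      rw [h2]
      push_cast [Nat.cast_sub (by omega : 1 ≤ n)]
      rw [hk]
      push_cast
      ring
    have hw0 : (0 : ℝ) < l * n * (n - 1) := by
      rw [← hw]
      exact Pool.Agent.K1H79.QR.wt_pos hn2 hl
    -- small `ε` is enough
    obtain ⟨e', he'⟩ : ∃ e' : ℝ, e' = min ε (4 / (l * n * (n - 1) : ℝ)) := ⟨_, rfl⟩
    have he0 : 0 < e' := by rw [he']; exact lt_min hε (by positivity)
    have he1 : e' ≤ ε := by rw [he']; exact min_le_left _ _
    have he2 : e' ≤ 4 / (l * n * (n - 1) : ℝ) := by rw [he']; exact min_le_right _ _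
    obtain ⟨C, hC, h⟩ := Pool.Agent.K1H79.QR.finalE n l hn2 hev hl he0
    rw [hw] at h
    refine ⟨C, fun L _ _ hL hns hd => ?_⟩
    have hD1 : 1 ≤ D L := Pool.Agent.K1H79.QR.disc_one L
    have key : T l L ≤ C * D L ^ (1 / 2 - 1 / (l * n * (n - 1)) + e' : ℝ) := by
      refine h L hL ⟨hns, ?_⟩
      rcases hd with hsq | ⟨d, f, hdf, hd⟩
      · obtain ⟨f, hf⟩ := hsq
        refine ⟨1, f, by rw [hf]; ring, Or.inl ?_⟩
        rw [Int.cast_one, abs_one]
        exact Real.one_le_rpow hD1 (by linarith)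
      · refine ⟨d, f, hdf, ?_⟩
        rcases hd with hd | hd
        · left
          exact hd.trans (Real.rpow_le_rpow_of_exponent_le hD1 (by linarith))
        · right
          intro p hp hpd
          exact (hd p hp hpd).trans (Real.rpow_le_rpow_of_exponent_le hD1 (by linarith))
    refine key.trans (mul_le_mul_of_nonneg_left ?_ hC.le)
    exact Real.rpow_le_rpow_of_exponent_le hD1 (by linarith)
  · have hw : (Pool.Agent.K1H79.QR.wt n l : ℝ) = l * (n - 1) ^ 2 := by
      obtain ⟨k, hk⟩ := hodd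
      have h2 : n / 2 = k := by omega
      unfold Pool.Agent.K1H79.QR.wt
      rw [h2]
      push_cast [Nat.cast_sub (by omega : 1 ≤ n)]
      rw [hk]
      push_cast
      ring
    obtain ⟨C, hC, h⟩ := Pool.Agent.K1H79.QR.finalO n l hn2 hodd hl hε
    rw [hw] at h
    refine ⟨C, fun L _ _ hL hns hsq d f hdf V hV hd => ?_⟩
    rw [mul_assoc]
    exact h L hL V hV ⟨hns, hsq, d, f, hdf, hd⟩
  · have hw : (Pool.Agent.K1H79.QR.wt n l : ℝ) = l * (n - 1) ^ 2 := by
      obtain ⟨k, hk⟩ := hodd
      have h2 : n / 2 = k := by omega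
      unfold Pool.Agent.K1H79.QR.wt
      rw [h2]
      push_cast [Nat.cast_sub (by omega : 1 ≤ n)]
      rw [hk]
      push_cast
      ring
    have ht : Pool.Agent.K1H79.QR.tt n = Real.sqrt (Real.exp 1) := by
      unfold Pool.Agent.K1H79.QR.tt
      rw [if_neg (by simpa using hodd), hexp]
    obtain ⟨δ, C, hδ, hC, h⟩ := Pool.Agent.K1H79.QR.final n l hn2 hl hε
    unfold Pool.Agent.K1H79.QR.tau at h
    rw [hw, ht] at h
    refine ⟨δ, C, hδ, fun L _ _ hL hns hsq d f hdf hd => ?_⟩
    refine h L hL ⟨hns, Or.inr hsq, d, f, hdf, ?_⟩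
    rcases hd with hd | hd
    · left
      rw [← mul_div_assoc]
      exact hd
    · right
      exact hd

end Pool.Agent.Results.MP_695920_nt.QuadraticResolvent
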