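import Pool.Agent.K1H79.RF.Thm

/-!
# 3-torsion in the class groups of the fields of even degree without subfields

Let `n ≥ 4` be even.  For every `ε > 0` there is a constant `C` (depending on `n, ε` only) such that every
number field `L` of degree `n` without proper subfields satisfies
`|Cl_L[3]| ≤ C |disc L| ^ (1/2 - 1/(3 n (n-1)) + ε)`.

There is no exceptional field, no condition on the Galois group and no unproved hypothesis.

Method (reflection, after Ellenberg and Venkatesh).  Let `K = L(√-3)`.  A rational prime `p = 2 mod 3` which
stays prime in `L` splits in `K` (`n` is even); a prime which is not inert and not ramified has a factor of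
norm at most `p ^ (n/2)` in `L`.  Half of the primes `p = 2 mod 3` below `|disc L| ^ (1/(3n(n-1)) - ε)` are of
one of these kinds.  In the second case the argument of Ellenberg and Venkatesh is applied in `L`.  In the
first case it is applied to the classes `c` of `K` with `c ^ 3 = 1` and `c · c' = 1` (`'` is the
automorphism of `K/L`); a quotient of two solutions is an element of `K` of small height whose norm or trace to
`L` generates `L`; the ideals used are counted with the help of the number of integers of `L` in a box of
side `|disc L| ^ (1/n)`.  The number of these classes is at least a constant times `|Cl_L[3]|` (Scholz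
reflection: Kummer theory, the cubic class characters of `K(μ)/K` and Dirichlet densities).

Starting-library theorems used as tools: `R362`/`Y772`/`Y773` (Hecke L-functions of class characters),
`H604C` (Herbrand quotients of cyclic extensions), `TH847`, `Y159` (lattice points, class number bound),
`H568.GR` (divisor bound), `R836.PP` (primes in residue classes).
-/

set_option autoImplicit false

namespace Pool.Agent.Results.MP_695920_nt.ThreeTorsionEvenDegree

open NumberField

/-- no subfields other than `ℚ` and `L` -/
def NoSubfields (L : Type) [Field L] [NumberField L] : Prop :=
  ∀ E : IntermediateField ℚ L, E = ⊥ ∨ E = ⊤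

/-- the number of ideal classes of `L` killed by `3` -/
noncomputable def T (L : Type) [Field L] [NumberField L] : ℝ :=
  (Nat.card {c : ClassGroup (𝓞 L) // c ^ 3 = 1} : ℝ)

/-- `|disc L|` -/
noncomputable def D (L : Type) [Field L] [NumberField L] : ℝ := |(discr L : ℝ)|

theorem result (n : ℕ) (hn : Even n) (hn4 : 4 ≤ n) (ε : ℝ) (hε : 0 < ε) :
    ∃ C : ℝ, ∀ (L : Type) [Field L] [NumberField L], Module.finrank ℚ L = n → NoSubfields L →
      T L ≤ C * D L ^ (1 / 2 - 1 / (3 * n * (n - 1)) + ε : ℝ) := by
  obtain ⟨C, -, h⟩ := Pool.Agent.K1H79.RF.final n hn hn4 ε hε
  exact ⟨C, fun L _ _ hL hns => h L hL hns⟩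

end Pool.Agent.Results.MP_695920_nt.ThreeTorsionEvenDegree
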